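import Pool.Agent.H17.CK1

namespace Pool.Agent.Results.MP_7e5e3f_co.CoronaKer
open Pool.Agent.H17.CK SimpleGraph

theorem result :
    ∀ (V : Type) [Finite V] (G : SimpleGraph V),
      (corona G).ncard + (ker G).ncard ≤ 2 * G.indepNum + (oddCycles G).ncard :=
  fun _ _ G => q1 G

end Pool.Agent.Results.MP_7e5e3f_co.CoronaKer
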