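import Pool.Agent.H17.CK1

namespace Pool.Agent.Results.MP_7e5e3f_co.QTwoFalse
open Pool.Agent.H17.CK SimpleGraph

theorem result :
    (¬ ∀ (V : Type) [Finite V] (G : SimpleGraph V), (corona G).ncard + (ker G).ncard ≤
      2 * G.indepNum + (oddCycles (G.induce (Dset G))).ncard) ∧
    (¬ ∀ (V : Type) [Finite V] (G : SimpleGraph V),
      (corona G).ncard + (ker G).ncard ≤ 2 * G.indepNum + packing G) := by
  refine ⟨fun h => ?_, fun h => ?_⟩
  · have := h _ K4
    have e : oddCycles (K4.induce (Dset K4)) = ∅ := by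
      rw [Set.eq_empty_iff_forall_notMem]
      rintro E ⟨v, -⟩
      exact Set.notMem_empty v.1 (k4_D ▸ v.2)
    rw [e, Set.ncard_empty] at this
    have := k4_main
    omega
  · have := h _ K4
    have := k4_main
    have := k4_pack
    omega

end Pool.Agent.Results.MP_7e5e3f_co.QTwoFalse
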